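import Pool.Agent.helper80.EN.Asm3

set_option autoImplicit false

/-!
# Bounded left Engel elements in a large class of groups

`ClassL` is the smallest class of groups that contains all linear groups (over arbitrary fields, of
arbitrary degree) and is closed under subgroups, extensions and the local closure (directed
unions). It contains all elementary amenable groups.

`ClassT` is the smallest class of groups that contains `ClassL`, is closed under subgroups, local
closure and extensions with kernel in `ClassL` and quotient in `ClassT`, and under actions on trees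
(without inversions) with vertex stabilisers in `ClassT` and edge stabilisers in `ClassL`.

`ClassS` is the smallest class of groups that contains the linear groups and is closed under
subgroups, extensions with kernel in `ClassL` and in `ClassS` and quotient in `ClassS`, and under
actions on trees (without inversions) with finitely many orbits of vertices, vertex stabilisers in
`ClassS` and edge stabilisers in `ClassL`, that is, under fundamental groups of graphs of groups with
finitely many vertices, vertex groups in `ClassS` and edge groups in `ClassL`. So it contains all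
iterated extensions of linear groups, free products of finitely many of these, amalgams and HNN
extensions of these over arbitrary subgroups, and (by the Magnus hierarchy, not formalised) all
one-relator groups.

THEOREM. (1) If `G` is in `ClassT` then `a` is a bounded left Engel element of `G` if and only if `a`
is in the Hirsch-Plotkin radical `HP G` and is a bounded left Engel element of `HP G`; so they form
a subgroup of `G` if and only if those of the locally nilpotent group `HP G` form a subgroup. (All
locally nilpotent groups are in `ClassL`.) (2) If moreover `HP G` is soluble then the bounded left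
Engel elements of `G` are the elements that generate a subnormal subgroup (they are the elements of
the Baer radical), and they form a subgroup. (3) All groups in `ClassS` are in `ClassT` and all their
locally nilpotent subgroups are soluble, so (2) holds for them.
-/

namespace Pool.Agent.Results.MP_202db4_al.BoundedEngelTrees

universe u

section Defs

variable {G : Type u} [Group G]

/-- The commutator `[x, y] = x⁻¹ y⁻¹ x y`. -/
def comm (x y : G) : G := x⁻¹ * y⁻¹ * x * y

/-- The iterated commutators: `[x, _0 y] = x` and `[x, _(n+1) y] = [[x, _n y], y]`. -/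
def iterComm (x y : G) : ℕ → G
  | 0 => x
  | n + 1 => comm (iterComm x y n) y

/-- `a` is a bounded left Engel element: for some `n` we have `[x, _n a] = 1` for all `x`. -/
def BoundedLeftEngel (a : G) : Prop := ∃ n : ℕ, ∀ x : G, iterComm x a n = 1

/-- All finitely generated subgroups of `H` are nilpotent. -/
def LocallyNilpotent (H : Subgroup G) : Prop :=
  ∀ K : Subgroup G, K.FG → K ≤ H → Group.IsNilpotent K

end Defs

/-- The bounded left Engel elements form a subgroup. -/
def EngelSubgroup (G : Type u) [Group G] : Prop :=
  ∃ B : Subgroup G, ∀ a : G, a ∈ B ↔ BoundedLeftEngel a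

/-- The Hirsch-Plotkin radical: the subgroup generated by all normal locally nilpotent subgroups.
It is itself normal and locally nilpotent (`HP_spec` below). -/
def HP (G : Type u) [Group G] : Subgroup G := sSup {N : Subgroup G | N.Normal ∧ LocallyNilpotent N}

/-- The smallest class of groups that contains the linear groups and is closed under
* `sub`: groups with an injective homomorphism into a member (subgroups, isomorphic groups);
* `ext`: extensions of a member by a member;
* `union`: groups all of whose finite subsets lie in a subgroup which is a member. -/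
inductive ClassL : (G : Type u) → [Group G] → Prop
  | linear {G : Type u} [Group G] (F : Type u) [Field F] (n : ℕ)
      (f : G →* Matrix.GeneralLinearGroup (Fin n) F) (hf : Function.Injective f) : ClassL G
  | sub {G H : Type u} [Group G] [Group H] (f : G →* H) (hf : Function.Injective f)
      (h : ClassL H) : ClassL G
  | ext {G : Type u} [Group G] (N : Subgroup G) [N.Normal] (h1 : ClassL N)
      (h2 : ClassL (G ⧸ N)) : ClassL G
  | union {G : Type u} [Group G] (S : Finset G → Subgroup G)
      (hS : ∀ s : Finset G, (s : Set G) ⊆ S s) (h : ∀ s, ClassL (S s)) : ClassL G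

/-- `G` acts by automorphisms, without inversions of edges, on the tree `Γ`. -/
structure TreeAction (G : Type u) [Group G] (V : Type u) [MulAction G V] (Γ : SimpleGraph V) :
    Prop where
  tree : Γ.IsTree
  adj : ∀ (g : G) (u v : V), Γ.Adj u v → Γ.Adj (g • u) (g • v)
  noInversion : ∀ (g : G) (u v : V), Γ.Adj u v → g • u = v → g • v ≠ u

/-- The smallest class of groups that contains `ClassL` and is closed under subgroups, extensions
with kernel in `ClassL` and quotient in `ClassT`, the local closure, and
* `tree`: groups that act without inversions on a tree such that the vertex stabilisers are in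
`ClassT` and the edge stabilisers are in `ClassL`. -/
inductive ClassT : (G : Type u) → [Group G] → Prop
  | base {G : Type u} [Group G] (h : ClassL G) : ClassT G
  | sub {G H : Type u} [Group G] [Group H] (f : G →* H) (hf : Function.Injective f)
      (h : ClassT H) : ClassT G
  | ext {G : Type u} [Group G] (N : Subgroup G) [N.Normal] (h1 : ClassL N)
      (h2 : ClassT (G ⧸ N)) : ClassT G
  | union {G : Type u} [Group G] (S : Finset G → Subgroup G)
      (hS : ∀ s : Finset G, (s : Set G) ⊆ S s) (h : ∀ s, ClassT (S s)) : ClassT G
  | tree {G : Type u} [Group G] (V : Type u) [MulAction G V] (Γ : SimpleGraph V)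
      (hΓ : TreeAction G V Γ) (hv : ∀ v : V, ClassT (MulAction.stabilizer G v))
      (he : ∀ u v : V, Γ.Adj u v →
        ClassL (MulAction.stabilizer G u ⊓ MulAction.stabilizer G v : Subgroup G)) : ClassT G

/-- The smallest class of groups that contains the linear groups and is closed under subgroups,
extensions of a group in `ClassL` and in `ClassS` by a group in `ClassS`, and
* `tree`: groups that act without inversions on a tree with finitely many orbits of vertices such
that the vertex stabilisers are in `ClassS` and the edge stabilisers are in `ClassL`. -/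
inductive ClassS : (G : Type u) → [Group G] → Prop
  | linear {G : Type u} [Group G] (F : Type u) [Field F] (n : ℕ)
      (f : G →* Matrix.GeneralLinearGroup (Fin n) F) (hf : Function.Injective f) : ClassS G
  | sub {G H : Type u} [Group G] [Group H] (f : G →* H) (hf : Function.Injective f)
      (h : ClassS H) : ClassS G
  | ext {G : Type u} [Group G] (N : Subgroup G) [N.Normal] (h0 : ClassL N) (h1 : ClassS N)
      (h2 : ClassS (G ⧸ N)) : ClassS G
  | tree {G : Type u} [Group G] (V : Type u) [MulAction G V] (Γ : SimpleGraph V)
      (hΓ : TreeAction G V Γ) (hf : Finite (MulAction.orbitRel.Quotient G V))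
      (hv : ∀ v : V, ClassS (MulAction.stabilizer G v))
      (he : ∀ u v : V, Γ.Adj u v →
        ClassL (MulAction.stabilizer G u ⊓ MulAction.stabilizer G v : Subgroup G)) : ClassS G

/-! ### Translation to the definitions used in the proof -/

section Translation

open Pool.Agent.helper80

variable {G : Type u} [Group G]

lemma iterComm_eq (x y : G) (n : ℕ) : iterComm x y n = EN.icom x y n := by
  induction n with
  | zero => rfl
  | succ n ih =>
    show comm (iterComm x y n) y = EN.com (EN.icom x y n) y
    rw [ih]
    rfl

lemma ble_iff (a : G) : BoundedLeftEngel a ↔ EN.BLE a := by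
  simp only [BoundedLeftEngel, EN.BLE, iterComm_eq]

lemma HP_eq (G : Type u) [Group G] : HP G = EN.HP G := rfl

lemma classL_iff (G : Type u) [Group G] : ClassL G ↔ EN.InL G := by
  constructor
  · intro h
    induction h with
    | linear F n f hf => exact EN.InL.linear F n f hf
    | sub f hf _ ih => exact EN.InL.sub f hf ih
    | ext N _ _ ih1 ih2 => exact EN.InL.ext N ih1 ih2
    | union S hS _ ih => exact EN.InL.union S hS ih
  · intro h
    induction h with
    | linear F n f hf => exact ClassL.linear F n f hf
    | sub f hf _ ih => exact ClassL.sub f hf ih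
    | ext N _ _ ih1 ih2 => exact ClassL.ext N ih1 ih2
    | union S hS _ ih => exact ClassL.union S hS ih

lemma treeAction_imp {V : Type u} [MulAction G V] {Γ : SimpleGraph V} (h : TreeAction G V Γ) :
    EN.TreeAct G V Γ := ⟨h.tree, h.adj, h.noInversion⟩

lemma classT_imp (G : Type u) [Group G] (h : ClassT G) : EN.InT G := by
  induction h with
  | base h => exact EN.InT.base ((classL_iff _).1 h)
  | sub f hf _ ih => exact EN.InT.sub f hf ih
  | ext N h1 _ ih2 => exact EN.InT.ext N ((classL_iff _).1 h1) ih2
  | union S hS _ ih => exact EN.InT.union S hS ih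
  | tree V Γ hΓ _ he ih =>
    exact EN.InT.tree V Γ (treeAction_imp hΓ) ih fun u v huv => (classL_iff _).1 (he u v huv)

lemma classS_imp (G : Type u) [Group G] (h : ClassS G) : EN.InS G := by
  induction h with
  | linear F n f hf => exact EN.InS.linear F n f hf
  | sub f hf _ ih => exact EN.InS.sub f hf ih
  | ext N h0 _ _ ih1 ih2 => exact EN.InS.ext N ((classL_iff _).1 h0) ih1 ih2
  | tree V Γ hΓ hf _ he ih =>
    exact EN.InS.tree V Γ (treeAction_imp hΓ) hf ih fun u v huv => (classL_iff _).1 (he u v huv)

lemma classS_classT (G : Type u) [Group G] (h : ClassS G) : ClassT G := by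
  induction h with
  | linear F n f hf => exact ClassT.base (ClassL.linear F n f hf)
  | sub f hf _ ih => exact ClassT.sub f hf ih
  | ext N h0 _ _ _ ih2 => exact ClassT.ext N h0 ih2
  | tree V Γ hΓ _ _ he ih => exact ClassT.tree V Γ hΓ ih he

/-- `HP G` is the largest normal locally nilpotent subgroup. -/
lemma HP_spec (G : Type u) [Group G] : (HP G).Normal ∧ LocallyNilpotent (HP G) ∧
    ∀ N : Subgroup G, N.Normal → LocallyNilpotent N → N ≤ HP G :=
  ⟨(EN.Asm.aHPR G).1, (EN.Asm.aHPR G).2.1, (EN.Asm.aHPR G).2.2.1⟩

end Translation

open Pool.Agent.helper80 in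
theorem part1 (G : Type u) [Group G] (hG : ClassT G) (a : G) :
    BoundedLeftEngel a ↔ ∃ h : a ∈ HP G, BoundedLeftEngel (⟨a, h⟩ : HP G) := by
  obtain ⟨h1, h2⟩ := EN.Asm.aLEQ G (classT_imp G hG)
  constructor
  · intro ha
    obtain ⟨h, hb⟩ := h1 a ((ble_iff a).1 ha)
    exact ⟨h, (ble_iff _).2 hb⟩
  · rintro ⟨h, hb⟩
    exact (ble_iff a).2 (h2 ⟨a, h⟩ ((ble_iff _).1 hb))

theorem part2 (G : Type u) [Group G] (hG : ClassT G) : EngelSubgroup G ↔ EngelSubgroup (HP G) := by
  constructor
  · rintro ⟨B, hB⟩
    refine ⟨B.comap (HP G).subtype, fun a => ?_⟩
    have h := part1 G hG (a : G)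
    rw [Subgroup.mem_comap, Subgroup.coe_subtype, hB, h]
    exact ⟨fun h => h.2, fun h => ⟨a.2, h⟩⟩
  · rintro ⟨B, hB⟩
    refine ⟨B.map (HP G).subtype, fun a => ?_⟩
    rw [part1 G hG a, Subgroup.mem_map]
    constructor
    · rintro ⟨b, hb, rfl⟩
      exact ⟨b.2, (hB b).1 hb⟩
    · rintro ⟨ha, hb⟩
      exact ⟨⟨a, ha⟩, (hB _).2 hb, rfl⟩

open Pool.Agent.helper80 in
theorem part3 (G : Type u) [Group G] (hG : ClassT G) (hs : Group.IsSolvable (HP G)) :
    (∀ a : G, BoundedLeftEngel a ↔ (Subgroup.zpowers a).IsSubnormal) ∧ EngelSubgroup G := by
  obtain ⟨h1, B, hB⟩ := EN.Asm.aBSG G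
    (fun a ha => ((part1 G hG a).1 ((ble_iff a).2 ha)).1) hs
  exact ⟨fun a => (ble_iff a).trans (h1 a), B, fun a => (hB a).trans (ble_iff a).symm⟩

open Pool.Agent.helper80 in
theorem part4 (G : Type u) [Group G] (hG : ClassS G) :
    ClassT G ∧ ∀ H : Subgroup G, LocallyNilpotent H → Group.IsSolvable H := by
  obtain ⟨d, hd⟩ := EN.Asm.aBDS G (classS_imp G hG)
  exact ⟨classS_classT G hG, fun H hH => ⟨⟨d, hd H hH⟩⟩⟩

open Pool.Agent.helper80 in
/-- Bounded left Engel elements of groups in `ClassT` and in `ClassS`. -/
theorem result :
    (∀ (G : Type u) [Group G], ClassT G →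
      (∀ a : G, BoundedLeftEngel a ↔ ∃ h : a ∈ HP G, BoundedLeftEngel (⟨a, h⟩ : HP G)) ∧
      (EngelSubgroup G ↔ EngelSubgroup (HP G)) ∧
      (Group.IsSolvable (HP G) →
        (∀ a : G, BoundedLeftEngel a ↔ (Subgroup.zpowers a).IsSubnormal) ∧ EngelSubgroup G)) ∧
    (∀ (G : Type u) [Group G], LocallyNilpotent (⊤ : Subgroup G) → ClassL G) ∧
    (∀ (G : Type u) [Group G], ClassS G → ClassT G ∧
      ∀ H : Subgroup G, LocallyNilpotent H → Group.IsSolvable H) :=
  ⟨fun G _ hG => ⟨part1 G hG, part2 G hG, part3 G hG⟩,
    fun G _ hG => (classL_iff G).2 ((EN.Asm.aLNI G).2 hG), fun G _ hG => part4 G hG⟩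

end Pool.Agent.Results.MP_202db4_al.BoundedEngelTrees
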