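import Pool.Agent.helper80.EN.Asm4

set_option autoImplicit false

/-!
# Bounded left Engel elements, Cartesian powers, and matrix groups over commutative rings

An element `a` of a group `G` is a bounded left Engel element of `G` if and only if the constant
sequence `a` is a left Engel element of the Cartesian power `G^ℕ`. So the subgroup
`U(G) = G ∩ HP(G^ℕ)` of `G` (diagonal embedding) consists of bounded left Engel elements (it contains
the Baer radical), and if all bounded left Engel elements of `G^ℕ` are in the Hirsch-Plotkin radical
of `G^ℕ`, then `U(G)` is the set of all bounded left Engel elements of `G`. This reduces the question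
(do the bounded left Engel elements form a subgroup?) to the question when they are in the
Hirsch-Plotkin radical, for a class of groups closed under Cartesian powers.

The theorem says that this is the case in a large class `ClassC`. `ClassL` is the smallest class of
groups that contains the linear groups over fields and is closed under subgroups, extensions and the
local closure (it contains all elementary amenable groups). `ClassC` is the
smallest class of groups that contains all groups of matrices over arbitrary commutative rings and is
closed under subgroups, extensions (with kernel in `ClassC` and in `ClassL` and quotient in `ClassC`),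
Cartesian powers `G^I`, and actions on trees (without inversions) with finitely many orbits of
vertices, vertex stabilisers in `ClassC` and edge stabilisers in `ClassL`, that is, fundamental groups
of graphs of groups with finitely many vertices, vertex groups in `ClassC` and edge groups in
`ClassL`. For `G` in `ClassC` the left Engel elements are the elements of `HP G` and the bounded left
Engel elements are the elements of the subgroup `U(G)`.

Proof. One shows by induction that all `G` in `ClassC` have the following two properties. (Q) All
Cartesian products of locally nilpotent subgroups of `G` are in `ClassL`. (For matrix groups over a commutative ring `R`: the product embeds in `GL_n(R^I)`, and `GL_n` of a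
commutative ring is locally `GL_n` of a Noetherian ring, which is soluble-by-(product of finitely many
linear groups). For trees: if `K` is a locally nilpotent group acting on a tree then the finitely
generated subgroups of its second derived group fix vertices.) (E) In all subgroups of `G` the left
Engel elements are in the Hirsch-Plotkin radical. (For groups in `ClassL` and for trees this is the
theorem `EngelRadical` on MP_43ab4e_al, which is proved in this repository.) If `G` has (Q) and (E) and
`a` is a left Engel element of `B ≤ G^I` with projections `B_i`, then `a_i` is in `HP(B_i)` by (E), and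
`B ∩ ∏ HP(B_i)` is a normal subgroup of `B` that contains `a` and is in `ClassL` by (Q), so `a` is in
`HP(B)`.
-/

namespace Pool.Agent.Results.MP_202db4_al.CartesianPowers

universe u

section Defs

variable {G : Type u} [Group G]

/-- The commutator `[x, y] = x⁻¹ y⁻¹ x y`. -/
def comm (x y : G) : G := x⁻¹ * y⁻¹ * x * y

/-- The iterated commutators: `[x, _0 y] = x` and `[x, _(n+1) y] = [[x, _n y], y]`. -/
def iterComm (x y : G) : ℕ → G
  | 0 => x
  | n + 1 => comm (iterComm x y n) y

/-- `a` is a left Engel element: for every `x` there is `n` with `[x, _n a] = 1`. -/
def IsLeftEngel (a : G) : Prop := ∀ x : G, ∃ n : ℕ, iterComm x a n = 1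

/-- `a` is a bounded left Engel element: for some `n` we have `[x, _n a] = 1` for all `x`. -/
def BoundedLeftEngel (a : G) : Prop := ∃ n : ℕ, ∀ x : G, iterComm x a n = 1

/-- All finitely generated subgroups of `H` are nilpotent. -/
def LocallyNilpotent (H : Subgroup G) : Prop :=
  ∀ K : Subgroup G, K.FG → K ≤ H → Group.IsNilpotent K

end Defs

/-- The Hirsch-Plotkin radical: the subgroup generated by all normal locally nilpotent subgroups.
It is itself normal and locally nilpotent (`HP_spec` below). -/
def HP (G : Type u) [Group G] : Subgroup G := sSup {N : Subgroup G | N.Normal ∧ LocallyNilpotent N}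

/-- The Cartesian power of `G` whose factors are indexed by the natural numbers (`ULift` only moves
`ℕ` to the universe of `G`). -/
abbrev SeqPower (G : Type u) : Type u := ULift.{u} ℕ → G

/-- The diagonal embedding: `a` is mapped to the constant sequence `a`. -/
def diag (G : Type u) [Group G] : G →* SeqPower G where
  toFun a _ := a
  map_one' := rfl
  map_mul' _ _ := rfl

/-- The subgroup `G ∩ HP (G^ℕ)` of `G`: the elements `a` such that the constant sequence `a` is in the
Hirsch-Plotkin radical of the Cartesian power `G^ℕ`. -/
def U (G : Type u) [Group G] : Subgroup G := (HP (SeqPower G)).comap (diag G)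

/-- The smallest class of groups that contains the linear groups and is closed under
* `sub`: groups with an injective homomorphism into a member (subgroups, isomorphic groups);
* `ext`: extensions of a member by a member;
* `union`: groups all of whose finite subsets lie in a subgroup which is a member. -/
inductive ClassL : (G : Type u) → [Group G] → Prop
  | linear {G : Type u} [Group G] (F : Type u) [Field F] (n : ℕ)
      (f : G →* Matrix.GeneralLinearGroup (Fin n) F) (hf : Function.Injective f) : ClassL G
  | sub {G H : Type u} [Group G] [Group H] (f : G →* H) (hf : Function.Injective f)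
      (h : ClassL H) : ClassL G
  | ext {G : Type u} [Group G] (N : Subgroup G) [N.Normal] (h1 : ClassL N)
      (h2 : ClassL (G ⧸ N)) : ClassL G
  | union {G : Type u} [Group G] (S : Finset G → Subgroup G)
      (hS : ∀ s : Finset G, (s : Set G) ⊆ S s) (h : ∀ s, ClassL (S s)) : ClassL G

/-- `G` acts by automorphisms, without inversions of edges, on the tree `Γ`. -/
structure TreeAction (G : Type u) [Group G] (V : Type u) [MulAction G V] (Γ : SimpleGraph V) :
    Prop where
  tree : Γ.IsTree
  adj : ∀ (g : G) (u v : V), Γ.Adj u v → Γ.Adj (g • u) (g • v)
  noInversion : ∀ (g : G) (u v : V), Γ.Adj u v → g • u = v → g • v ≠ u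

/-- The smallest class of groups that contains the groups of invertible matrices over commutative
rings and is closed under
* `sub`: groups with an injective homomorphism into a member (subgroups, isomorphic groups);
* `ext`: extensions with kernel in the class and in `ClassL`, and quotient in the class;
* `pow`: Cartesian powers `I → G`;
* `tree`: groups that act without inversions on a tree with finitely many orbits of vertices such
that the vertex stabilisers are in the class and the edge stabilisers are in `ClassL`. -/
inductive ClassC : (G : Type u) → [Group G] → Prop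
  | matrix {G : Type u} [Group G] (R : Type u) [CommRing R] (n : ℕ)
      (f : G →* Matrix.GeneralLinearGroup (Fin n) R) (hf : Function.Injective f) : ClassC G
  | sub {G H : Type u} [Group G] [Group H] (f : G →* H) (hf : Function.Injective f)
      (h : ClassC H) : ClassC G
  | ext {G : Type u} [Group G] (N : Subgroup G) [N.Normal] (h0 : ClassL N) (h1 : ClassC N)
      (h2 : ClassC (G ⧸ N)) : ClassC G
  | pow {G : Type u} [Group G] (I : Type u) (h : ClassC G) : ClassC (I → G)
  | tree {G : Type u} [Group G] (V : Type u) [MulAction G V] (Γ : SimpleGraph V)
      (hΓ : TreeAction G V Γ) (hf : Finite (MulAction.orbitRel.Quotient G V))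
      (hv : ∀ v : V, ClassC (MulAction.stabilizer G v))
      (he : ∀ u v : V, Γ.Adj u v →
        ClassL (MulAction.stabilizer G u ⊓ MulAction.stabilizer G v : Subgroup G)) : ClassC G

/-! ### Translation to the definitions used in the proof -/

section Translation

open Pool.Agent.helper80

variable {G : Type u} [Group G]

lemma iterComm_eq (x y : G) (n : ℕ) : iterComm x y n = EN.icom x y n := by
  induction n with
  | zero => rfl
  | succ n ih =>
    show comm (iterComm x y n) y = EN.com (EN.icom x y n) y
    rw [ih]
    rfl

lemma ble_iff (a : G) : BoundedLeftEngel a ↔ EN.BLE a := by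
  simp only [BoundedLeftEngel, EN.BLE, iterComm_eq]

lemma isLeftEngel_iff (a : G) : IsLeftEngel a ↔ EN.LeftEngel a := by
  simp only [IsLeftEngel, EN.LeftEngel, iterComm_eq]

lemma HP_eq (G : Type u) [Group G] : HP G = EN.HP G := rfl

lemma classL_iff (G : Type u) [Group G] : ClassL G ↔ EN.InL G := by
  constructor
  · intro h
    induction h with
    | linear F n f hf => exact EN.InL.linear F n f hf
    | sub f hf _ ih => exact EN.InL.sub f hf ih
    | ext N _ _ ih1 ih2 => exact EN.InL.ext N ih1 ih2
    | union S hS _ ih => exact EN.InL.union S hS ih
  · intro h
    induction h with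
    | linear F n f hf => exact ClassL.linear F n f hf
    | sub f hf _ ih => exact ClassL.sub f hf ih
    | ext N _ _ ih1 ih2 => exact ClassL.ext N ih1 ih2
    | union S hS _ ih => exact ClassL.union S hS ih

lemma treeAction_imp {V : Type u} [MulAction G V] {Γ : SimpleGraph V} (h : TreeAction G V Γ) :
    EN.TreeAct G V Γ := ⟨h.tree, h.adj, h.noInversion⟩

lemma classC_imp (G : Type u) [Group G] (h : ClassC G) : EN.InC G := by
  induction h with
  | matrix R n f hf => exact EN.InC.matrix R n f hf
  | sub f hf _ ih => exact EN.InC.sub f hf ih
  | ext N h0 _ _ ih1 ih2 => exact EN.InC.ext N ((classL_iff _).1 h0) ih1 ih2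
  | pow I _ ih => exact EN.InC.pow I ih
  | tree V Γ hΓ hf _ he ih =>
    exact EN.InC.tree V Γ (treeAction_imp hΓ) hf ih fun u v huv => (classL_iff _).1 (he u v huv)

/-- `HP G` is the largest normal locally nilpotent subgroup. -/
lemma HP_spec (G : Type u) [Group G] : (HP G).Normal ∧ LocallyNilpotent (HP G) ∧
    ∀ N : Subgroup G, N.Normal → LocallyNilpotent N → N ≤ HP G :=
  ⟨(EN.Asm.aHPR G).1, (EN.Asm.aHPR G).2.1, (EN.Asm.aHPR G).2.2.1⟩

end Translation

open Pool.Agent.helper80 in
/-- The left Engel elements of groups in `ClassC` form the Hirsch-Plotkin radical. -/
theorem leftEngel_iff (G : Type u) [Group G] (hG : ClassC G) (a : G) :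
    IsLeftEngel a ↔ a ∈ HP G := by
  constructor
  · intro ha
    exact EN.Asm.aESB.2.2 G (EN.Asm.aINC G (classC_imp G hG)).2 a ((isLeftEngel_iff a).1 ha)
  · intro ha
    exact (isLeftEngel_iff a).2 (EN.Asm.aHLE G a ha)

open Pool.Agent.helper80 in
theorem U_sub (G : Type u) [Group G] (a : G) (ha : a ∈ U G) : BoundedLeftEngel a :=
  (ble_iff a).2 ((EN.Asm.aCPW G a).2 (EN.Asm.aHLE (SeqPower G) (diag G a) ha))

open Pool.Agent.helper80 in
theorem sub_U (G : Type u) [Group G]
    (h : ∀ x : SeqPower G, BoundedLeftEngel x → x ∈ HP (SeqPower G)) (a : G)
    (ha : BoundedLeftEngel a) : a ∈ U G := by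
  obtain ⟨n, hn⟩ := (ble_iff a).1 ha
  have h1 : EN.BLE (diag G a) :=
    ⟨n, fun x => funext fun i => (EN.CPW_icom x (diag G a) n i).trans (hn (x i))⟩
  exact h (diag G a) ((ble_iff (diag G a)).2 h1)

/-- For every group `G` the subgroup `U G = G ∩ HP (G^ℕ)` contains all elements that generate a
subnormal subgroup, it consists of bounded left Engel elements, and it contains all bounded left Engel
elements of `G` if those of `G^ℕ` are in `HP (G^ℕ)`. This is the case if `G` is in `ClassC`: then the
left Engel elements of `G` are the elements of `HP G` and the bounded left Engel elements are the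
elements of the subgroup `U G`. -/
theorem result :
    (∀ (G : Type u) [Group G],
      (∀ a : G, (Subgroup.zpowers a).IsSubnormal → a ∈ U G) ∧
      (∀ a ∈ U G, BoundedLeftEngel a) ∧
      ((∀ x : SeqPower G, BoundedLeftEngel x → x ∈ HP (SeqPower G)) →
        ∀ a : G, BoundedLeftEngel a → a ∈ U G)) ∧
    (∀ (G : Type u) [Group G], ClassC G →
      (∀ a : G, IsLeftEngel a ↔ a ∈ HP G) ∧ ∀ a : G, BoundedLeftEngel a ↔ a ∈ U G) := by
  refine ⟨fun G _ => ⟨Pool.Agent.helper80.EN.UBR Pool.Agent.helper80.EN.Asm.aSNB G, U_sub G,
    sub_U G⟩, fun G _ hG => ⟨leftEngel_iff G hG, fun a => ?_⟩⟩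
  refine ⟨sub_U G (fun x ⟨n, hn⟩ => ?_) a, U_sub G a⟩
  exact (leftEngel_iff _ (ClassC.pow (ULift.{u} ℕ) hG) x).1 fun y => ⟨n, hn y⟩

end Pool.Agent.Results.MP_202db4_al.CartesianPowers
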