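import Mathlib

set_option autoImplicit false

namespace Pool.Agent.Results.MP_202db4_al.ExponentTwoPower

/-- `g` is a left `n`-Engel element: `[x, g, …, g] = 1` (`n` copies of `g`) for all `x`, where
`[x, g] = x⁻¹ g⁻¹ x g`. -/
def LeftEngel {G : Type} [Group G] (n : ℕ) (g : G) : Prop :=
  ∀ x : G, (fun y : G => y⁻¹ * g⁻¹ * y * g)^[n] x = 1

/-- The set of bounded left Engel elements is a subgroup in every group (question Q1). -/
def Q1 : Prop :=
  ∀ (G : Type) [Group G], ∃ H : Subgroup G, (H : Set G) = {g : G | ∃ n : ℕ, LeftEngel n g}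

/-- The commutator map `y ↦ [y, g]`. -/
abbrev cm {G : Type} [Group G] (g : G) : G → G := fun y => y⁻¹ * g⁻¹ * y * g

theorem cm_one {G : Type} [Group G] (g : G) : cm g 1 = 1 := by
  simp [cm]

theorem iter_one {G : Type} [Group G] (g : G) (n : ℕ) : (cm g)^[n] 1 = 1 := by
  induction n with
  | zero => rfl
  | succ n ih => rw [Function.iterate_succ_apply, cm_one, ih]

theorem LeftEngel.mono {G : Type} [Group G] {g : G} {m n : ℕ} (hmn : m ≤ n)
    (h : LeftEngel m g) : LeftEngel n g := by
  intro x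
  obtain ⟨d, rfl⟩ := Nat.exists_eq_add_of_le hmn
  rw [Nat.add_comm, Function.iterate_add_apply, h x]
  exact iter_one g d

/-- If the involution `t` inverts `c`, then `[c, t, …, t] = c ^ ((-2) ^ n)`. -/
theorem iter_inverted {G : Type} [Group G] {t c : G} (ht : t * t = 1) (hc : t * c * t = c⁻¹)
    (n : ℕ) : (cm t)^[n] c = c ^ ((-2 : ℤ) ^ n) ∧ t * (c ^ ((-2 : ℤ) ^ n)) * t
      = (c ^ ((-2 : ℤ) ^ n))⁻¹ := by
  have hti : t⁻¹ = t := inv_eq_of_mul_eq_one_right ht
  have key : ∀ z : ℤ, t * c ^ z * t = (c ^ z)⁻¹ := by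
    intro z
    have h1 : t * c ^ z * t = t * c ^ z * t⁻¹ := by rw [hti]
    rw [h1, ← conj_zpow, hti, hc, inv_zpow]
  refine ⟨?_, key _⟩
  induction n with
  | zero => simp
  | succ n ih =>
    rw [Function.iterate_succ_apply', ih]
    show (c ^ ((-2 : ℤ) ^ n))⁻¹ * t⁻¹ * c ^ ((-2 : ℤ) ^ n) * t = _
    have h2 : (c ^ ((-2 : ℤ) ^ n))⁻¹ * t⁻¹ * c ^ ((-2 : ℤ) ^ n) * t
        = (c ^ ((-2 : ℤ) ^ n))⁻¹ * (t * c ^ ((-2 : ℤ) ^ n) * t) := by
      rw [hti]; simp only [mul_assoc]
    rw [h2, key, ← zpow_neg, ← zpow_add]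
    congr 1
    ring

/-- An involution `t` such that all `[x, t]` satisfy `[x, t] ^ (2 ^ k) = 1` is left
`(k + 1)`-Engel. -/
theorem leftEngel_of_involution {G : Type} [Group G] {t : G} (ht : t * t = 1) (k : ℕ)
    (h : ∀ x : G, (cm t x) ^ (2 ^ k) = 1) : LeftEngel (k + 1) t := by
  intro x
  have hti : t⁻¹ = t := inv_eq_of_mul_eq_one_right ht
  show (cm t)^[k + 1] x = 1
  rw [Function.iterate_succ_apply]
  have hc : t * cm t x * t = (cm t x)⁻¹ := by
    show t * (x⁻¹ * t⁻¹ * x * t) * t = (x⁻¹ * t⁻¹ * x * t)⁻¹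
    rw [hti]
    simp only [mul_inv_rev, inv_inv, hti, mul_assoc, ht, mul_one]
  rw [(iter_inverted ht hc k).1]
  have h2 : ((-2 : ℤ) ^ k) = ((2 ^ k : ℕ) : ℤ) * (-1) ^ k := by
    push_cast
    rw [← mul_pow]; norm_num
  rw [h2, zpow_mul, zpow_natCast, h x, one_zpow]

/-- Conversely, for an involution `t` being left `(k + 1)`-Engel means that all commutators
`[x, t]` have order dividing `2 ^ k`. -/
theorem involution_iff {G : Type} [Group G] {t : G} (ht : t * t = 1) (k : ℕ) :
    LeftEngel (k + 1) t ↔ ∀ x : G, (x⁻¹ * t⁻¹ * x * t) ^ (2 ^ k) = 1 := by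
  constructor
  · intro h x
    have hx := h x
    have hti : t⁻¹ = t := inv_eq_of_mul_eq_one_right ht
    change (cm t)^[k + 1] x = 1 at hx
    rw [Function.iterate_succ_apply] at hx
    have hc : t * cm t x * t = (cm t x)⁻¹ := by
      show t * (x⁻¹ * t⁻¹ * x * t) * t = (x⁻¹ * t⁻¹ * x * t)⁻¹
      rw [hti]
      simp only [mul_inv_rev, inv_inv, hti, mul_assoc, ht, mul_one]
    rw [(iter_inverted ht hc k).1] at hx
    have h2 : ((2 ^ k : ℕ) : ℤ) = ((-2 : ℤ) ^ k) * (-1) ^ k := by
      push_cast
      rw [← mul_pow]; norm_num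
    show (cm t x) ^ (2 ^ k) = 1
    rw [← zpow_natCast, h2, zpow_mul, hx, one_zpow]
  · intro h
    exact leftEngel_of_involution ht k h

section wreath

/-- The cyclic group of order two. -/
abbrev C2 : Type := Multiplicative (ZMod 2)

/-- The embedding of the base group `C2 → H` in the wreath product. -/
def base {H : Type} [Group H] (f : C2 → H) : RegularWreathProduct H C2 := ⟨f, 1⟩

theorem base_mul {H : Type} [Group H] (f g : C2 → H) : base f * base g = base (f * g) := by
  apply RegularWreathProduct.ext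
  · funext q
    simp [base]
  · simp [base]

theorem base_one {H : Type} [Group H] : base (1 : C2 → H) = 1 := rfl

theorem base_inv {H : Type} [Group H] (f : C2 → H) : (base f)⁻¹ = base f⁻¹ := by
  rw [inv_eq_iff_mul_eq_one, base_mul, mul_inv_cancel, base_one]

theorem base_pow {H : Type} [Group H] (f : C2 → H) (m : ℕ) : (base f) ^ m = base (f ^ m) := by
  induction m with
  | zero => simp [base_one]
  | succ m ih => rw [pow_succ, ih, base_mul, pow_succ]

theorem base_inj {H : Type} [Group H] {f g : C2 → H} (h : base f = base g) : f = g :=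
  congrArg RegularWreathProduct.left h

theorem cm_base {H : Type} [Group H] (f g : C2 → H) :
    cm (base g) (base f) = base (fun q => cm (g q) (f q)) := by
  show (base f)⁻¹ * (base g)⁻¹ * base f * base g = _
  rw [base_inv, base_inv, base_mul, base_mul, base_mul]
  rfl

theorem iter_base {H : Type} [Group H] (g f : C2 → H) (n : ℕ) :
    (cm (base g))^[n] (base f) = base (fun q => (cm (g q))^[n] (f q)) := by
  induction n with
  | zero => rfl
  | succ n ih =>
    rw [Function.iterate_succ_apply', ih, cm_base]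
    congr 1
    funext q
    rw [Function.iterate_succ_apply']

theorem cm_mem_base {H : Type} [Group H] (t x : RegularWreathProduct H C2) :
    cm t x = base (cm t x).left := by
  apply RegularWreathProduct.ext
  · rfl
  · show x.right⁻¹ * t.right⁻¹ * x.right * t.right = 1
    rw [mul_comm x.right⁻¹ t.right⁻¹]
    group

/-- Every involution of `H ≀ C₂` is left `(k + 1)`-Engel when `H` has exponent dividing
`2 ^ k`. -/
theorem leftEngel_wreath {H : Type} [Group H] (k : ℕ) (hH : ∀ g : H, g ^ (2 ^ k) = 1)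
    (t : RegularWreathProduct H C2) (ht : t * t = 1) : LeftEngel (k + 1) t := by
  apply leftEngel_of_involution ht
  intro x
  rw [cm_mem_base, base_pow]
  have : (cm t x).left ^ (2 ^ k) = 1 := by
    funext q
    simp [hH]
  rw [this, base_one]

/-- The involution of the top group. -/
def tau (H : Type) [Group H] : RegularWreathProduct H C2 :=
  RegularWreathProduct.inl (Multiplicative.ofAdd (1 : ZMod 2))

theorem tau_mul (H : Type) [Group H] : tau H * tau H = 1 := by
  rw [tau, ← map_mul]
  have : (Multiplicative.ofAdd (1 : ZMod 2)) * (Multiplicative.ofAdd (1 : ZMod 2)) = 1 := by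
    decide
  rw [this, map_one]

/-- The base element with `h` in coordinate `1` and `1` in the other coordinate. -/
def one1 {H : Type} [Group H] (h : H) : C2 → H := Pi.mulSingle 1 h

/-- The conjugate of `tau` by `one1 h`. -/
def tau' {H : Type} [Group H] (h : H) : RegularWreathProduct H C2 :=
  (base (one1 h))⁻¹ * tau H * base (one1 h)

theorem tau'_mul {H : Type} [Group H] (h : H) : tau' h * tau' h = 1 := by
  have h1 : tau' h * tau' h = (base (one1 h))⁻¹ * (tau H * tau H) * base (one1 h) := by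
    simp only [tau', mul_assoc, mul_inv_cancel_left]
  rw [h1, tau_mul]
  group

theorem ofAdd_inv_sq : (Multiplicative.ofAdd (1 : ZMod 2))⁻¹ * (Multiplicative.ofAdd (1 : ZMod 2))⁻¹
    = 1 := by decide

theorem ofAdd_sq' : (Multiplicative.ofAdd (1 : ZMod 2)) * (1⁻¹ *
    (Multiplicative.ofAdd (1 : ZMod 2)) * 1) = 1 := by decide

theorem tau_mul_tau' {H : Type} [Group H] (h : H) :
    ∃ f : C2 → H, tau H * tau' h = base f ∧ f 1 = h := by
  refine ⟨(tau H * tau' h).left, ?_, ?_⟩
  · apply RegularWreathProduct.ext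
    · rfl
    · exact ofAdd_sq'
  · simp only [tau, tau', base, one1]
    simp only [RegularWreathProduct.mul_left, RegularWreathProduct.left_inl,
      RegularWreathProduct.inv_left, RegularWreathProduct.mul_right,
      RegularWreathProduct.right_inl, RegularWreathProduct.inv_right, one_mul, inv_one, mul_one,
      Pi.mul_apply, Pi.inv_apply, Pi.one_apply]
    simp [ofAdd_inv_sq]

/-- The product `tau * tau'` is left `n`-Engel only if `h` is. -/
theorem leftEngel_of_prod {H : Type} [Group H] (h : H) (n : ℕ)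
    (hp : LeftEngel n (tau H * tau' h)) : LeftEngel n h := by
  intro y
  obtain ⟨f, hf, hf1⟩ := tau_mul_tau' h
  have h1 := hp (base (fun _ => y))
  rw [hf] at h1
  change (cm (base f))^[n] (base fun _ => y) = 1 at h1
  rw [iter_base, ← base_one] at h1
  have h2 := congrFun (base_inj h1) 1
  simp only [hf1, Pi.one_apply] at h2
  exact h2

end wreath

/-- The bounded left Engel elements form a subgroup in every group of exponent dividing `2 ^ k`
(question Q1 for these groups). -/
def Q1For (k : ℕ) : Prop :=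
  ∀ (G : Type) [Group G], (∀ g : G, g ^ (2 ^ k) = 1) →
    ∃ H : Subgroup G, (H : Set G) = {g : G | ∃ n : ℕ, LeftEngel n g}

theorem C2_sq (c : C2) : c * c = 1 := by
  revert c
  decide

/-- `H ≀ C₂` has exponent dividing `2 ^ (k + 1)` if `H` has exponent dividing `2 ^ k`. -/
theorem wreath_pow {H : Type} [Group H] (k : ℕ) (hH : ∀ g : H, g ^ (2 ^ k) = 1)
    (x : RegularWreathProduct H C2) : x ^ (2 ^ (k + 1)) = 1 := by
  have h1 : x * x = base (x * x).left := by
    apply RegularWreathProduct.ext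
    · rfl
    · exact C2_sq x.right
  have h2 : x ^ (2 ^ (k + 1)) = (x * x) ^ (2 ^ k) := by
    rw [← pow_two, ← pow_mul, ← pow_succ']
  have h3 : (x * x).left ^ (2 ^ k) = 1 := by
    funext q
    exact hH _
  rw [h2, h1, base_pow, h3, base_one]

/-- Under Q1 for exponent `2 ^ (k + 1)`, every element of a group of exponent dividing `2 ^ k` is
bounded left Engel. -/
theorem engel_of_Q1For (k : ℕ) (hQ : Q1For (k + 1)) (H : Type) [Group H]
    (hH : ∀ g : H, g ^ (2 ^ k) = 1) (h : H) : ∃ n : ℕ, LeftEngel n h := by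
  obtain ⟨S, hS⟩ := hQ (RegularWreathProduct H C2) (wreath_pow k hH)
  have ha : tau H ∈ S := by
    have : tau H ∈ (S : Set (RegularWreathProduct H C2)) := by
      rw [hS]
      exact ⟨k + 1, leftEngel_wreath k hH _ (tau_mul H)⟩
    exact this
  have hb : tau' h ∈ S := by
    have : tau' h ∈ (S : Set (RegularWreathProduct H C2)) := by
      rw [hS]
      exact ⟨k + 1, leftEngel_wreath k hH _ (tau'_mul h)⟩
    exact this
  have hab : tau H * tau' h ∈ (S : Set (RegularWreathProduct H C2)) := S.mul_mem ha hb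
  rw [hS] at hab
  obtain ⟨n, hn⟩ := hab
  exact ⟨n, leftEngel_of_prod h n hn⟩

theorem iter_pi {ι : Type} {G : ι → Type} [∀ i, Group (G i)] (g x : ∀ i, G i) (n : ℕ) :
    (cm g)^[n] x = fun i => (cm (g i))^[n] (x i) := by
  induction n with
  | zero => rfl
  | succ n ih =>
    rw [Function.iterate_succ_apply', ih]
    funext i
    rw [Function.iterate_succ_apply']
    rfl

/-- Under Q1 for exponent `2 ^ (k + 1)`, the Engel degree of the groups of exponent dividing
`2 ^ k` is bounded. -/
theorem uniform_of_Q1For (k : ℕ) (hQ : Q1For (k + 1)) :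
    ∃ m : ℕ, ∀ (H : Type) [Group H], (∀ g : H, g ^ (2 ^ k) = 1) → ∀ h : H, LeftEngel m h := by
  by_contra hcon
  push Not at hcon
  choose H inst hexp h hh using hcon
  have hex : ∀ m, ∃ x : H m, (cm (h m))^[m] x ≠ 1 := by
    intro m
    have := hh m
    unfold LeftEngel at this
    push Not at this
    exact this
  choose x hx using hex
  have hP : ∀ g : (∀ m, H m), g ^ (2 ^ k) = 1 := by
    intro g
    funext m
    exact hexp m (g m)
  obtain ⟨n, hn⟩ := engel_of_Q1For k hQ (∀ m, H m) hP h
  have h1 := hn x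
  change (cm h)^[n] x = 1 at h1
  rw [iter_pi] at h1
  exact hx n (congrFun h1 n)

/-- **Main result.**  Part 1: in a group of exponent dividing `2 ^ k` every element `h` becomes,
in a suitable group of exponent dividing `2 ^ (k + 1)`, the obstruction for a product of two left
`(k + 1)`-Engel involutions to be left Engel.  Part 2: if bounded left Engel elements always form a
subgroup, then for every `k` there is `m` such that all groups of exponent dividing `2 ^ k` are
`m`-Engel.  Part 3: for this it is enough that they form a subgroup in the groups of exponent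
dividing `2 ^ (k + 1)`.  Part 4: the bounded left Engel elements form a subgroup in every group of
`2`-power exponent if and only if, for every `k`, the groups of exponent dividing `2 ^ k` satisfy an
Engel law. -/
theorem result :
    (∀ (k : ℕ) (H : Type) [Group H], (∀ g : H, g ^ (2 ^ k) = 1) → ∀ h : H,
      ∃ (G : Type) (_ : Group G) (a b : G), (∀ g : G, g ^ (2 ^ (k + 1)) = 1) ∧
        a * a = 1 ∧ b * b = 1 ∧ LeftEngel (k + 1) a ∧ LeftEngel (k + 1) b ∧
        ∀ n : ℕ, LeftEngel n (a * b) → LeftEngel n h) ∧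
    (Q1 → ∀ k : ℕ, ∃ m : ℕ, ∀ (H : Type) [Group H], (∀ g : H, g ^ (2 ^ k) = 1) →
      ∀ x h : H, (fun y : H => y⁻¹ * h⁻¹ * y * h)^[m] x = 1) ∧
    (∀ k : ℕ, Q1For (k + 1) → ∃ m : ℕ, ∀ (H : Type) [Group H], (∀ g : H, g ^ (2 ^ k) = 1) →
      ∀ x h : H, (fun y : H => y⁻¹ * h⁻¹ * y * h)^[m] x = 1) ∧
    ((∀ k : ℕ, Q1For k) ↔ ∀ k : ℕ, ∃ m : ℕ, ∀ (H : Type) [Group H],
      (∀ g : H, g ^ (2 ^ k) = 1) → ∀ x h : H, (fun y : H => y⁻¹ * h⁻¹ * y * h)^[m] x = 1) := by
  have key : ∀ k : ℕ, Q1For (k + 1) → ∃ m : ℕ, ∀ (H : Type) [Group H],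
      (∀ g : H, g ^ (2 ^ k) = 1) → ∀ x h : H, (fun y : H => y⁻¹ * h⁻¹ * y * h)^[m] x = 1 := by
    intro k hQ
    obtain ⟨m, hm⟩ := uniform_of_Q1For k hQ
    exact ⟨m, fun H _ hH x h => hm H hH h x⟩
  refine ⟨?_, ?_, key, ?_⟩
  · intro k H _ hH h
    exact ⟨RegularWreathProduct H C2, inferInstance, tau H, tau' h, wreath_pow k hH, tau_mul H,
      tau'_mul h, leftEngel_wreath k hH _ (tau_mul H), leftEngel_wreath k hH _ (tau'_mul h),
      fun n hn => leftEngel_of_prod h n hn⟩
  · intro hQ k
    exact key k fun G _ _ => hQ G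
  · constructor
    · intro hQ k
      exact key k (hQ (k + 1))
    · intro hE k G _ hG
      obtain ⟨m, hm⟩ := hE k
      refine ⟨⊤, ?_⟩
      ext g
      simp only [Subgroup.coe_top, Set.mem_univ, Set.mem_ofPred_eq, true_iff]
      exact ⟨m, fun x => hm G hG x g⟩

end Pool.Agent.Results.MP_202db4_al.ExponentTwoPower
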