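import Pool.Agent.helper80.EN.Asm5

set_option autoImplicit false

/-!
# A large subgroup of bounded left Engel elements, and its cosets

For a group `G` let `U(G)` be the set of the uniformly Engel elements: the elements `a` such that for
every `r` there is `c` such that any `r` conjugates of `a` generate a nilpotent subgroup of class at
most `c`.

THEOREM. For every group `G` the set `U(G)` is a normal subgroup of `G`; it contains all elements that
generate a subnormal subgroup (so it contains the Baer radical), it is contained in the
Hirsch-Plotkin radical, and all its elements are bounded left Engel elements. The set of all bounded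
left Engel elements of `G` is a union of cosets of `U(G)`: if `a` is in `U(G)` and `b` is a bounded
left Engel element then `a b` and `b a` are bounded left Engel elements. `U(G)` is the intersection of
`G` (diagonal embedding) with the Hirsch-Plotkin radical of the Cartesian power `G^ℕ`, the subgroup
that is denoted by `U G` in the hand-in `CartesianPowers`.

Proof. `a` is a bounded left Engel element of `G` if and only if the constant sequence `a` is a left
Engel element of `G^ℕ`, and `a` is in `U(G)` if and only if the constant sequence is in `HP(G^ℕ)`. In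
every group `H` the product `h b` of an element `h` of `HP(H)` and a left Engel element `b` is left
Engel: `[x, _n h b]` is in `HP(H)` for some `n`, and `HP(H)<b>` is locally nilpotent.
-/

namespace Pool.Agent.Results.MP_202db4_al.UniformEngel

universe u

section Defs

variable {G : Type u} [Group G]

/-- The commutator `[x, y] = x⁻¹ y⁻¹ x y`. -/
def comm (x y : G) : G := x⁻¹ * y⁻¹ * x * y

/-- The iterated commutators: `[x, _0 y] = x` and `[x, _(n+1) y] = [[x, _n y], y]`. -/
def iterComm (x y : G) : ℕ → G
  | 0 => x
  | n + 1 => comm (iterComm x y n) y

/-- `a` is a bounded left Engel element: for some `n` we have `[x, _n a] = 1` for all `x`. -/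
def BoundedLeftEngel (a : G) : Prop := ∃ n : ℕ, ∀ x : G, iterComm x a n = 1

/-- The subgroup generated by the conjugates `g⁻¹ a g`, `g ∈ S`. -/
def conjSubgroup (a : G) (S : Finset G) : Subgroup G :=
  Subgroup.closure {x : G | ∃ g ∈ S, x = g⁻¹ * a * g}

/-- For every `r` there is `c` such that any `r` conjugates of `a` generate a nilpotent subgroup of
class at most `c`. -/
def UniformlyEngel (a : G) : Prop :=
  ∀ r : ℕ, ∃ c : ℕ, ∀ S : Finset G, S.card ≤ r → (conjSubgroup a S).lowerCentralSeries c = ⊥

/-- All finitely generated subgroups of `H` are nilpotent. -/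
def LocallyNilpotent (H : Subgroup G) : Prop :=
  ∀ K : Subgroup G, K.FG → K ≤ H → Group.IsNilpotent K

end Defs

/-- The Hirsch-Plotkin radical: the subgroup generated by all normal locally nilpotent subgroups.
It is itself normal and locally nilpotent. -/
def HP (G : Type u) [Group G] : Subgroup G := sSup {N : Subgroup G | N.Normal ∧ LocallyNilpotent N}

/-- The Cartesian power of `G` whose factors are indexed by the natural numbers (`ULift` only moves
`ℕ` to the universe of `G`). -/
abbrev SeqPower (G : Type u) : Type u := ULift.{u} ℕ → G

open Pool.Agent.helper80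

lemma iterComm_eq {G : Type u} [Group G] (x y : G) (n : ℕ) : iterComm x y n = EN.icom x y n := by
  induction n with
  | zero => rfl
  | succ n ih =>
    show comm (iterComm x y n) y = EN.com (EN.icom x y n) y
    rw [ih]
    rfl

lemma ble_iff {G : Type u} [Group G] (a : G) : BoundedLeftEngel a ↔ EN.BLE a := by
  simp only [BoundedLeftEngel, EN.BLE, iterComm_eq]

/-- The uniformly Engel elements of a group form a normal subgroup `U = G ∩ HP (G^ℕ)` of bounded left
Engel elements which contains the Baer radical, and the set of the bounded left Engel elements is a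
union of cosets of `U`. -/
theorem result (G : Type u) [Group G] :
    ∃ U : Subgroup G, (∀ a : G, a ∈ U ↔ UniformlyEngel a) ∧
      (∀ a : G, a ∈ U ↔ (fun _ => a : SeqPower G) ∈ HP (SeqPower G)) ∧ U.Normal ∧
      (∀ a : G, (Subgroup.zpowers a).IsSubnormal → a ∈ U) ∧
      (∀ a ∈ U, BoundedLeftEngel a ∧ a ∈ HP G) ∧
      (∀ a ∈ U, ∀ b : G, BoundedLeftEngel b →
        BoundedLeftEngel (a * b) ∧ BoundedLeftEngel (b * a)) := by
  obtain ⟨U, h1, h2, h3, h4, h5, -⟩ := EN.Asm.uniform G
  refine ⟨U, h1, fun a => ?_, h2, h3, fun a ha => ⟨(ble_iff a).2 (h4 a ha).1, (h4 a ha).2⟩, ?_⟩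
  · exact (h1 a).trans (EN.UNI EN.Asm.aCNC EN.Asm.aHPR G a).symm
  · intro a ha b hb
    have h := h5 a ha b ((ble_iff b).1 hb)
    exact ⟨(ble_iff _).2 h.1, (ble_iff _).2 h.2⟩

end Pool.Agent.Results.MP_202db4_al.UniformEngel
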